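import Mathlib
import Pool.Agent.SYC.MnC

/-!
# The four-sphere has no atlas with capacity preserving transition maps of class `W^{1,p}`, `p > 3`

Coordinates of `ℝ⁴`: `(x₁, y₁, x₂, y₂)`, indices `0, 1, 2, 3`; `ω₀ (u, v) = uᵀ J v`.
-/

open MeasureTheory Set
open scoped ContDiff Matrix ENNReal

namespace Pool.Agent.Results.MP_9a66f1_gt.CapacityAtlas

/-- `ℝ⁴` -/
abbrev R4 := Fin 4 → ℝ

/-- the unit sphere of the euclidean space `ℝ⁵` -/
abbrev S4 := Metric.sphere (0 : EuclideanSpace ℝ (Fin 5)) 1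

/-- the matrix of `ω₀ = dx₁ ∧ dy₁ + dx₂ ∧ dy₂` -/
def J : Matrix (Fin 4) (Fin 4) ℝ := !![0, 1, 0, 0; -1, 0, 0, 0; 0, 0, 0, 1; 0, 0, -1, 0]

/-- the Jacobi matrix of `f` at `x`: the entry `b a` is the partial derivative of the component `f_b` in the direction `a` -/
noncomputable def Jac (f : R4 → R4) (x : R4) : Matrix (Fin 4) (Fin 4) ℝ :=
  Matrix.of fun b a => fderiv ℝ f x (Pi.single a 1) b

/-- the open unit ball -/
def Ball : Set R4 := {x | ∑ a, x a ^ 2 < 1 ^ 2}

/-- the open symplectic cylinder over the unit disc -/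
def Cylinder : Set R4 := {x | x 0 ^ 2 + x 1 ^ 2 < 1 ^ 2}

/-- `f` is a smooth symplectic embedding of the open set `U` into `V` -/
structure IsSymplecticEmbedding (f : R4 → R4) (U V : Set R4) : Prop where
  smooth : ContDiffOn ℝ ∞ f U
  inj : InjOn f U
  symp : ∀ x ∈ U, (Jac f x)ᵀ * J * Jac f x = J
  maps : MapsTo f U V

/-- `c` is a symplectic capacity (on the open subsets of `ℝ⁴`): monotone under symplectic embeddings, conformal, and nontrivial -/
structure IsCapacity (c : Set R4 → ℝ≥0∞) : Prop where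
  mono : ∀ U V f, IsOpen U → IsOpen V → IsSymplecticEmbedding f U V → c U ≤ c V
  conf : ∀ (U : Set R4) (t : ℝ), IsOpen U → 0 < t →
    c ((fun x => t • x) '' U) = ENNReal.ofReal (t ^ 2) * c U
  ball : c Ball ≠ 0
  cylinder : c Cylinder ≠ ⊤

/-- sense (A): every point has an open neighbourhood `W` such that `c (φ (O)) = c (O)` for all open `O ⊆ W` -/
def PreservesCapacity (c : Set R4 → ℝ≥0∞) (φ : OpenPartialHomeomorph R4 R4) : Prop :=
  ∀ x ∈ φ.source, ∃ W, IsOpen W ∧ x ∈ W ∧ W ⊆ φ.source ∧ ∀ O ⊆ W, IsOpen O → c (φ '' O) = c O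

/-- `ψ` is a smooth function with compact support contained in `Ω` -/
structure IsTest (Ω : Set R4) (ψ : R4 → ℝ) : Prop where
  smooth : ContDiff ℝ ∞ ψ
  compact : HasCompactSupport ψ
  support : tsupport ψ ⊆ Ω

/-- `φ` is of class `W^{1,p}_loc` on its domain: it has a weak derivative `G` there (`G x b a` is the partial derivative of the
component `φ_b` in the direction `a`) which is in `L^p` on every compact subset -/
def IsSobolev (p : ℝ) (φ : OpenPartialHomeomorph R4 R4) : Prop :=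
  ∃ G : R4 → Matrix (Fin 4) (Fin 4) ℝ,
    (∀ b a, ∀ K ⊆ φ.source, IsCompact K →
      MemLp (fun x => G x b a) (ENNReal.ofReal p) (volume.restrict K)) ∧
    ∀ b a ψ, IsTest φ.source ψ →
      ∫ x, φ x b * fderiv ℝ ψ x (Pi.single a 1) = -∫ x, G x b a * ψ x

/-- Let `c` be a symplectic capacity and `p > 3`.  There is no family of charts of the four-sphere (homeomorphisms from open
subsets which cover it onto open subsets of `ℝ⁴`) all whose transition maps preserve the capacity `c` and are of class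
`W^{1,p}_loc`. -/
theorem result {c : Set R4 → ℝ≥0∞} (hc : IsCapacity c) {p : ℝ} (hp : 3 < p) {ι : Type*}
    (x : ι → OpenPartialHomeomorph S4 R4) (hx : ⋃ i, (x i).source = univ) :
    ¬ ∀ i j, PreservesCapacity c ((x i).symm.trans (x j)) ∧
      IsSobolev p ((x i).symm.trans (x j)) := fun h =>
  SYC.no_atlas_cap (c := c)
    ⟨fun U V f hU hV hf => hc.mono U V f hU hV ⟨hf.smooth, hf.inj, hf.symp, hf.maps⟩, hc.conf,
      hc.ball, hc.cylinder⟩ hp x (fun m => mem_iUnion.1 (hx ▸ mem_univ m))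
    (fun i j => (h i j).1) (fun i j => by
      obtain ⟨G, h1, h2⟩ := (h i j).2
      exact ⟨G, h1, fun b ψ hψ a => h2 b a ψ ⟨hψ.smooth, hψ.cpt, hψ.supp⟩⟩)

end Pool.Agent.Results.MP_9a66f1_gt.CapacityAtlas
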