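import Mathlib
import Pool.Agent.SYD.Mn2

/-!
# The four-sphere has no topological symplectic atlas of finite Dirichlet energy

Coordinates of `ℝ⁴`: `(x₁, y₁, x₂, y₂)`, indices `0, 1, 2, 3`; `ω₀ (u, v) = uᵀ J v`.
-/

open MeasureTheory Set Filter
open scoped ContDiff Matrix ENNReal

namespace Pool.Agent.Results.MP_9a66f1_gt.FiniteEnergy

/-- `ℝ⁴` -/
abbrev R4 := Fin 4 → ℝ

/-- the unit sphere of the euclidean space `ℝ⁵` -/
abbrev S4 := Metric.sphere (0 : EuclideanSpace ℝ (Fin 5)) 1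

/-- the matrix of `ω₀ = dx₁ ∧ dy₁ + dx₂ ∧ dy₂` -/
def J : Matrix (Fin 4) (Fin 4) ℝ := !![0, 1, 0, 0; -1, 0, 0, 0; 0, 0, 0, 1; 0, 0, -1, 0]

/-- the Jacobi matrix of `f` at `x`: the entry `b a` is the partial derivative of the component `f_b` in the direction `a` -/
noncomputable def Jac (f : R4 → R4) (x : R4) : Matrix (Fin 4) (Fin 4) ℝ :=
  Matrix.of fun b a => fderiv ℝ f x (Pi.single a 1) b

/-- `ψ` is a smooth function with compact support contained in `Ω` -/
structure IsTest (Ω : Set R4) (ψ : R4 → ℝ) : Prop where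
  smooth : ContDiff ℝ ∞ ψ
  compact : HasCompactSupport ψ
  support : tsupport ψ ⊆ Ω

/-- the matrix valued function `G`, square integrable on every compact subset of `Ω`, is the weak derivative of `φ` on `Ω`:
`G x b a` is the partial derivative of the component `φ_b` in the direction `a` -/
structure WeakDeriv (Ω : Set R4) (φ : R4 → R4) (G : R4 → Matrix (Fin 4) (Fin 4) ℝ) : Prop where
  memLp : ∀ b a, ∀ K ⊆ Ω, IsCompact K → MemLp (fun x => G x b a) 2 (volume.restrict K)
  parts : ∀ b a ψ, IsTest Ω ψ →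
    ∫ x, φ x b * fderiv ℝ ψ x (Pi.single a 1) = -∫ x, G x b a * ψ x

/-- the homeomorphism `φ` between open subsets of `ℝ⁴` has locally finite Dirichlet energy (class `W^{1,2}_loc`), and its weak
derivative `G` satisfies `Gᵀ J G = J` or `Gᵀ J G = -J` almost everywhere, that is `φ^* ω₀ = ± ω₀` -/
def IsSobolevSymplectic (φ : OpenPartialHomeomorph R4 R4) : Prop :=
  ∃ G, WeakDeriv φ.source φ G ∧
    ∀ᵐ x, x ∈ φ.source → (G x)ᵀ * J * G x = J ∨ (G x)ᵀ * J * G x = -J

/-- the homeomorphism `φ` between open subsets of `ℝ⁴` is near every point of its domain the uniform limit of a sequence of smooth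
symplectic maps, or of a sequence of smooth antisymplectic maps, whose Dirichlet energies are bounded -/
def IsFiniteEnergyLimit (φ : OpenPartialHomeomorph R4 R4) : Prop :=
  ∀ x ∈ φ.source, ∃ W, IsOpen W ∧ x ∈ W ∧ W ⊆ φ.source ∧ ∃ (s : ℝ) (f : ℕ → R4 → R4) (C : ℝ≥0∞),
    (s = 1 ∨ s = -1) ∧ C ≠ ⊤ ∧ (∀ n, ContDiffOn ℝ ∞ (f n) W) ∧
    (∀ n, ∀ y ∈ W, (Jac (f n) y)ᵀ * J * Jac (f n) y = s • J) ∧
    TendstoUniformlyOn f φ atTop W ∧
    ∀ n b a, ∫⁻ y in W, ‖Jac (f n) y b a‖ₑ ^ 2 ≤ C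

theorem toSobSymp {φ : OpenPartialHomeomorph R4 R4} (h : IsSobolevSymplectic φ) :
    SYH.SobSympPM 2 φ := by
  obtain ⟨G, hG, hs⟩ := h
  exact ⟨G, ⟨fun b a => hG.memLp b a, fun b ψ hψ a =>
    hG.parts b a ψ ⟨hψ.smooth, hψ.cpt, hψ.supp⟩⟩, hs⟩

/-- There is no family of charts of the four-sphere (homeomorphisms from open subsets which cover it onto open subsets of `ℝ⁴`)
each of whose transition maps is of class `W^{1,2}_loc` with `φ^* ω₀ = ± ω₀` almost everywhere, or is locally a uniform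
limit of smooth symplectic, or antisymplectic, maps with bounded Dirichlet energy. -/
theorem result {ι : Type*} (x : ι → OpenPartialHomeomorph S4 R4) (hx : ⋃ i, (x i).source = univ) :
    ¬ ∀ i j, IsSobolevSymplectic ((x i).symm.trans (x j)) ∨
      IsFiniteEnergyLimit ((x i).symm.trans (x j)) := fun h =>
  SYD.no_atlas_pm2 x (fun m => mem_iUnion.1 (hx ▸ mem_univ m)) fun i j =>
    (h i j).elim toSobSymp SYD.EnLim.sob

end Pool.Agent.Results.MP_9a66f1_gt.FiniteEnergy
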