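import Mathlib
import Pool.Agent.SYQ.MnQ

/-!
# The four-sphere has no topological symplectic atlas of Hölder class, exponent `> 2/3`

Coordinates of `ℝ⁴`: `(x₁, y₁, x₂, y₂)`, indices `0, 1, 2, 3`; `ω₀ (u, v) = uᵀ J v`.
-/

open Set Filter
open scoped ContDiff Matrix

namespace Pool.Agent.Results.MP_9a66f1_gt.HolderLimits

/-- `ℝ⁴` -/
abbrev R4 := Fin 4 → ℝ

/-- the unit sphere of the euclidean space `ℝ⁵` -/
abbrev S4 := Metric.sphere (0 : EuclideanSpace ℝ (Fin 5)) 1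

/-- the matrix of `ω₀ = dx₁ ∧ dy₁ + dx₂ ∧ dy₂` -/
def J : Matrix (Fin 4) (Fin 4) ℝ := !![0, 1, 0, 0; -1, 0, 0, 0; 0, 0, 0, 1; 0, 0, -1, 0]

/-- the Jacobi matrix of `f` at `x`: the entry `b a` is the partial derivative of the component `f_b` in the direction `a` -/
noncomputable def Jac (f : R4 → R4) (x : R4) : Matrix (Fin 4) (Fin 4) ℝ :=
  Matrix.of fun b a => fderiv ℝ f x (Pi.single a 1) b

/-- the homeomorphism `φ` between open subsets of `ℝ⁴` is near every point of its domain the uniform limit of a sequence of smooth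
symplectic embeddings which is bounded in the Hölder space `C^{0,α}` -/
def IsHolderLimit (α : ℝ) (φ : OpenPartialHomeomorph R4 R4) : Prop :=
  ∀ x ∈ φ.source, ∃ W, IsOpen W ∧ x ∈ W ∧ W ⊆ φ.source ∧ ∃ (f : ℕ → R4 → R4) (L : ℝ),
    (∀ n, ContDiffOn ℝ ∞ (f n) W) ∧ (∀ n, InjOn (f n) W) ∧
    (∀ n, ∀ y ∈ W, (Jac (f n) y)ᵀ * J * Jac (f n) y = J) ∧
    TendstoUniformlyOn f φ atTop W ∧
    ∀ n, ∀ y ∈ W, ∀ z ∈ W, ‖f n y - f n z‖ ≤ L * ‖y - z‖ ^ α

/-- Let `2/3 < α ≤ 1`.  There is no family of charts of the four-sphere (homeomorphisms from open subsets which cover it onto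
open subsets of `ℝ⁴`) all whose transition maps are locally uniform limits of smooth symplectic embeddings which are bounded in
`C^{0,α}`. -/
theorem result {α : ℝ} (h1 : 2 / 3 < α) (h2 : α ≤ 1) {ι : Type*}
    (x : ι → OpenPartialHomeomorph S4 R4) (hx : ⋃ i, (x i).source = univ) :
    ¬ ∀ i j, IsHolderLimit α ((x i).symm.trans (x j)) := fun h =>
  SYQ.no_atlas_hol h1 h2 x (fun m => mem_iUnion.1 (hx ▸ mem_univ m)) h

end Pool.Agent.Results.MP_9a66f1_gt.HolderLimits
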